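import Mathlib.Combinatorics.SimpleGraph.Acyclic
import Mathlib.Combinatorics.SimpleGraph.Finite
import Mathlib.LinearAlgebra.Matrix.Rank
import Mathlib.Data.ZMod.Basic
import Mathlib.Data.Set.Card
import Mathlib.Data.ENat.Lattice

/-!
# Rank-width and split-free cable terms: definitions (for MP_d70946_co)
-/

set_option autoImplicit false

namespace Pool.Agent.Q39.CT

/-! ### Rank-width -/

section
variable {V : Type} [Fintype V]

open Classical in
/-- The cutrank of `X`: the rank over `GF(2)` of the `X × (V ∖ X)` submatrix of the adjacency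
matrix of `G`. -/
noncomputable def cutrank (G : SimpleGraph V) (X : Set V) : ℕ :=
  (Matrix.of fun (i : {v // v ∈ X}) (j : {v // v ∉ X}) =>
    if G.Adj i.1 j.1 then (1 : ZMod 2) else 0).rank

end

/-- The vertices of `T` on the side of `b` of the edge `ab`: those which can be reached from `b`
without the edge `ab`. -/
def side {W : Type} (T : SimpleGraph W) (a b : W) : Set W :=
  {x | (T.deleteEdges {s(a, b)}).Reachable b x}

/-- `G` has a rank-decomposition of width at most `k`: it has at most one vertex, or there are a
finite tree `T` of maximum degree at most three and a bijection `f` from the vertices of `G` to the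
leaves of `T` such that for every edge `ab` of `T` the set of the vertices `v` with `f v` on the
side of `b` has cutrank at most `k`. -/
def HasRankDecomp {V : Type} [Fintype V] (G : SimpleGraph V) (k : ℕ) : Prop :=
  Fintype.card V ≤ 1 ∨ ∃ (W : Type) (_ : Fintype W) (T : SimpleGraph W), T.IsTree ∧
    (∀ w, (T.neighborSet w).ncard ≤ 3) ∧
    ∃ f : V ≃ {w // (T.neighborSet w).ncard = 1}, ∀ a b, T.Adj a b →
      cutrank G {v | (f v).1 ∈ side T a b} ≤ k

/-- The rank-width of `G`. -/
noncomputable def rw {V : Type} [Fintype V] (G : SimpleGraph V) : ℕ∞ :=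
  ⨅ (k : ℕ) (_ : HasRankDecomp G k), (k : ℕ∞)

/-! ### Split-free cable terms -/

/-- Split-free cable terms of type `p → q`. The letters are `e`, `nu S`, `kappa`, `phi`, `B`, `K`;
the constructors are `comp s t` (first `s`, then `t`) and `box s t` (side by side). `reorder σ s`
first reorders the list of the input cables; it is free and has the type of `s`. -/
inductive Term (V : Type) : ℕ → ℕ → Type
  | e : Term V 1 1
  | nu (S : Finset V) : Term V 0 1
  | kappa : Term V 1 0
  | phi : Term V 2 1
  | B : Term V 2 2
  | K : Term V 1 1
  | comp {p q r : ℕ} (s : Term V p q) (t : Term V q r) : Term V p r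
  | box {p q p' q' : ℕ} (s : Term V p q) (t : Term V p' q') : Term V (p + p') (q + q')
  | reorder {p q : ℕ} (σ : Equiv.Perm (Fin p)) (s : Term V p q) : Term V p q

namespace Term

variable {V : Type} [DecidableEq V]

/-- The list of output cables of a term, for a list of input cables. -/
def run : {p q : ℕ} → Term V p q → List (Finset V) → List (Finset V)
  | _, _, e, L => L
  | _, _, nu S, _ => [S]
  | _, _, kappa, _ => []
  | _, _, phi, L => [L.getD 0 ∅ ∪ L.getD 1 ∅]
  | _, _, B, L => L
  | _, _, K, L => L
  | _, _, comp s t, L => t.run (s.run L)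
  | _, _, @box _ p _ _ _ s t, L => s.run (L.take p) ++ t.run (L.drop p)
  | _, _, @reorder _ p _ σ s, L => s.run (List.ofFn fun i : Fin p => L.getD (σ i) ∅)

/-- The edges (as ordered pairs) which are added by a term, for a list of input cables: `B` adds
all edges between its two cables and `K` adds all edges inside its cable. -/
def edges : {p q : ℕ} → Term V p q → List (Finset V) → Finset (V × V)
  | _, _, e, _ => ∅
  | _, _, nu _, _ => ∅
  | _, _, kappa, _ => ∅
  | _, _, phi, _ => ∅
  | _, _, B, L => L.getD 0 ∅ ×ˢ L.getD 1 ∅ ∪ L.getD 1 ∅ ×ˢ L.getD 0 ∅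
  | _, _, K, L => (L.getD 0 ∅).offDiag
  | _, _, comp s t, L => s.edges L ∪ t.edges (s.run L)
  | _, _, @box _ p _ _ _ s t, L => s.edges (L.take p) ∪ t.edges (L.drop p)
  | _, _, @reorder _ p _ σ s, L => s.edges (List.ofFn fun i : Fin p => L.getD (σ i) ∅)

/-- The multiset of the vertices which are created by a term. -/
def created : {p q : ℕ} → Term V p q → Multiset V
  | _, _, nu S => S.val
  | _, _, comp s t => s.created + t.created
  | _, _, box s t => s.created + t.created
  | _, _, reorder _ s => s.created
  | _, _, _ => 0

/-- Only nonempty cables are created. -/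
def Nonempties : {p q : ℕ} → Term V p q → Prop
  | _, _, nu S => S.Nonempty
  | _, _, comp s t => s.Nonempties ∧ t.Nonempties
  | _, _, box s t => s.Nonempties ∧ t.Nonempties
  | _, _, reorder _ s => s.Nonempties
  | _, _, _ => True

/-- The maximum of the cable ranks `p + q` of the subterm occurrences (of type `p → q`). -/
def width : {p q : ℕ} → Term V p q → ℕ
  | _, _, e => 1 + 1
  | _, _, nu _ => 0 + 1
  | _, _, kappa => 1 + 0
  | _, _, phi => 2 + 1
  | _, _, B => 2 + 2
  | _, _, K => 1 + 1
  | _, _, @comp _ p _ r s t => max (p + r) (max s.width t.width)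
  | _, _, @box _ p q p' q' s t => max ((p + p') + (q + q')) (max s.width t.width)
  | _, _, @reorder _ p q _ s => max (p + q) s.width

end Term

/-- The closed term `t` is legal for `G`: every vertex of `G` is created exactly once (in nonempty
cables), and the edges which are added are exactly the edges of `G`. -/
def Legal {V : Type} [DecidableEq V] (G : SimpleGraph V) (t : Term V 0 0) : Prop :=
  t.Nonempties ∧ (∀ v, t.created.count v = 1) ∧ ∀ x y, (x, y) ∈ t.edges [] ↔ G.Adj x y

/-- The split-free cable term width. -/
noncomputable def sfw {V : Type} [Fintype V] [DecidableEq V] (G : SimpleGraph V) : ℕ∞ :=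
  ⨅ (t : Term V 0 0) (_ : Legal G t), (t.width : ℕ∞)

end Pool.Agent.Q39.CT
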