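import Pool.Agent.Q39.CT.Defs
import Mathlib.Tactic
import Mathlib.Data.Set.Card.Arithmetic

/-!
# Balanced edges in subcubic trees (for MP_d70946_co)
-/

set_option autoImplicit false

namespace Pool.Agent.Q39.CT

section
variable {W : Type} {T : SimpleGraph W}

theorem reach_avoid {H : SimpleGraph W} (hH : H ≤ T) (b c : W) :
    ∀ {u x : W} (q : H.Walk u x), b ∉ q.support → (T.deleteEdges {s(b, c)}).Reachable u x := by
  intro u x q
  induction q with
  | nil => intro _; exact SimpleGraph.Reachable.refl _
  | @cons u v w h q ih =>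
    intro hb
    rw [SimpleGraph.Walk.support_cons, List.mem_cons, not_or] at hb
    refine SimpleGraph.Reachable.trans ?_ (ih hb.2)
    refine SimpleGraph.Adj.reachable ?_
    rw [SimpleGraph.deleteEdges_adj]
    refine ⟨hH h, ?_⟩
    intro he
    have he' : s(u, v) = s(b, c) := he
    rw [Sym2.eq_iff] at he'
    rcases he' with ⟨h1, _⟩ | ⟨_, h2⟩
    · exact hb.1 h1.symm
    · exact hb.2 (h2 ▸ SimpleGraph.Walk.start_mem_support q)

theorem side_step {a b x : W} (h : x ∈ side T a b) :
    x = b ∨ ∃ c, T.Adj b c ∧ c ≠ a ∧ x ∈ side T b c := by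
  classical
  obtain ⟨p⟩ := h
  have hp := p.toPath.2
  generalize p.toPath.1 = q at hp
  cases q with
  | nil => exact Or.inl rfl
  | @cons _ c _ h q =>
    right
    rw [SimpleGraph.Walk.cons_isPath_iff] at hp
    rw [SimpleGraph.deleteEdges_adj] at h
    refine ⟨c, h.1, ?_, ?_⟩
    · rintro rfl
      exact h.2 (by simp [Sym2.eq_swap])
    · exact reach_avoid (SimpleGraph.deleteEdges_le _) b c q hp.2

theorem side_sub (hT : T.IsAcyclic) {a b c x : W} (hbc : T.Adj b c) (hca : c ≠ a)
    (hx : x ∈ side T b c) : x ∈ side T a b ∧ x ≠ b := by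
  classical
  have hbr : ¬ (T.deleteEdges {s(b, c)}).Reachable c b := by
    have h1 := SimpleGraph.isAcyclic_iff_forall_isBridge.1 hT
      (e := s(b, c)) (by simpa using hbc)
    rw [SimpleGraph.isBridge_iff] at h1
    intro h2
    exact h1 h2.symm
  obtain ⟨q⟩ := hx
  have hq : b ∉ q.support := fun hb => hbr ⟨q.takeUntil b hb⟩
  constructor
  · have h1 : (T.deleteEdges {s(b, a)}).Reachable c x :=
      reach_avoid (SimpleGraph.deleteEdges_le _) b a q hq
    have h2 : (T.deleteEdges {s(a, b)}).Adj b c := by
      rw [SimpleGraph.deleteEdges_adj]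
      refine ⟨hbc, ?_⟩
      intro he
      have he' : s(b, c) = s(a, b) := he
      rw [Sym2.eq_iff] at he'
      rcases he' with ⟨_, h2⟩ | ⟨_, h2⟩
      · exact hbc.ne h2.symm
      · exact hca h2
    rw [Sym2.eq_swap] at h1
    exact (SimpleGraph.Adj.reachable h2).trans h1
  · rintro rfl
    exact hq (SimpleGraph.Walk.end_mem_support q)

theorem side_cover (hT : T.Connected) {a b : W} (hab : T.Adj a b) (x : W) :
    x ∈ side T a b ∨ x ∈ side T b a := by
  classical
  obtain ⟨p⟩ := hT.preconnected a x
  have hp := p.toPath.2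
  generalize p.toPath.1 = q at hp
  cases q with
  | nil => exact Or.inr (SimpleGraph.Reachable.refl _)
  | @cons _ c _ h q =>
    rw [SimpleGraph.Walk.cons_isPath_iff] at hp
    have h1 : (T.deleteEdges {s(a, b)}).Reachable c x := reach_avoid le_rfl a b q hp.2
    by_cases hcb : c = b
    · left; rw [hcb] at h1; exact h1
    · right
      have h2 : (T.deleteEdges {s(a, b)}).Adj a c := by
        rw [SimpleGraph.deleteEdges_adj]
        refine ⟨h, ?_⟩
        intro he
        have he' : s(a, c) = s(a, b) := he
        rw [Sym2.eq_iff] at he'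
        rcases he' with ⟨_, h2⟩ | ⟨h2, _⟩
        · exact hcb h2
        · exact hab.ne h2
      have h3 := (SimpleGraph.Adj.reachable h2).trans h1
      rw [Sym2.eq_swap] at h3
      exact h3

end

/-- Every subcubic tree has an edge which splits its leaves evenly. -/
theorem balanced {V W : Type} [Fintype V] [Finite W] (T : SimpleGraph W) (hT : T.IsTree)
    (h3 : ∀ w, (T.neighborSet w).ncard ≤ 3) (f : V ≃ {w // (T.neighborSet w).ncard = 1})
    (m : ℕ) (hm : 2 ≤ m) (hn : 2 * m ≤ Fintype.card V + 1) :
    ∃ a b, T.Adj a b ∧ m ≤ {v | (f v).1 ∈ side T a b}.ncard ∧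
      {v | (f v).1 ∈ side T a b}.ncard ≤ 2 * (m - 1) := by
  classical
  have main : ∀ n : ℕ, ∀ a b, T.Adj a b → (side T a b).ncard ≤ n →
      m ≤ {v | (f v).1 ∈ side T a b}.ncard → ∃ a b, T.Adj a b ∧
      m ≤ {v | (f v).1 ∈ side T a b}.ncard ∧ {v | (f v).1 ∈ side T a b}.ncard ≤ 2 * (m - 1) := by
    intro n
    induction n with
    | zero =>
      intro a b hab h1 _
      have : b ∈ side T a b := SimpleGraph.Reachable.refl _
      have h2 : side T a b = ∅ := (Set.ncard_eq_zero (Set.toFinite _)).1 (by omega)
      rw [h2] at this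
      exact absurd this (Set.notMem_empty b)
    | succ n ih =>
      intro a b hab h1 h2
      by_cases h4 : {v | (f v).1 ∈ side T a b}.ncard ≤ 2 * (m - 1)
      · exact ⟨a, b, hab, h2, h4⟩
      · push Not at h4
        -- `b` is not a leaf
        have ha : a ∈ T.neighborSet b := hab.symm
        have hleaf : (T.neighborSet b).ncard ≠ 1 := by
          intro hl
          rw [Set.ncard_eq_one] at hl
          obtain ⟨z, hz⟩ := hl
          have : {v | (f v).1 ∈ side T a b}.ncard ≤ 1 := by
            rw [Set.ncard_le_one_iff]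
            intro u v hu hv
            have key : ∀ w, (f w).1 ∈ side T a b → (f w).1 = b := by
              intro w hw
              rcases side_step hw with h | ⟨c, hc1, hc2, _⟩
              · exact h
              · exfalso
                have hc : c ∈ T.neighborSet b := hc1
                rw [hz] at hc ha
                exact hc2 (hc.trans ha.symm)
            exact f.injective (Subtype.ext ((key u hu).trans (key v hv).symm))
          omega
        -- the other neighbours
        set N : Set W := T.neighborSet b \ {a} with hN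
        have hNc : N.ncard ≤ 2 := by
          have : N.ncard = (T.neighborSet b).ncard - 1 := Set.ncard_sdiff_singleton_of_mem ha
          have := h3 b
          omega
        have hcov : {v | (f v).1 ∈ side T a b} ⊆ ⋃ c ∈ N, {v | (f v).1 ∈ side T b c} := by
          intro v hv
          rcases side_step hv with h | ⟨c, hc1, hc2, hc3⟩
          · exact absurd (h ▸ (f v).2) hleaf
          · exact Set.mem_biUnion (show c ∈ N from ⟨hc1, hc2⟩) hc3
        have hex : ∃ c ∈ N, m ≤ {v | (f v).1 ∈ side T b c}.ncard := by
          by_contra hcon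
          push Not at hcon
          have hfin : N.Finite := Set.toFinite _
          have h5 : (⋃ c ∈ N, {v | (f v).1 ∈ side T b c}).ncard ≤
              ∑ c ∈ hfin.toFinset, {v | (f v).1 ∈ side T b c}.ncard := by
            have : (⋃ c ∈ N, {v | (f v).1 ∈ side T b c}) =
                ⋃ c ∈ hfin.toFinset, {v | (f v).1 ∈ side T b c} := by
              ext v; simp
            rw [this]
            exact Finset.set_ncard_biUnion_le _ _
          have h6 : ∑ c ∈ hfin.toFinset, {v | (f v).1 ∈ side T b c}.ncard ≤
              ∑ _c ∈ hfin.toFinset, (m - 1) := by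
            apply Finset.sum_le_sum
            intro c hc
            have := hcon c (by simpa using hc)
            omega
          rw [Finset.sum_const, smul_eq_mul, ← Set.ncard_eq_toFinset_card N hfin] at h6
          have h7 := Set.ncard_le_ncard hcov (Set.toFinite _)
          have h8 : N.ncard * (m - 1) ≤ 2 * (m - 1) := Nat.mul_le_mul_right _ hNc
          omega
        obtain ⟨c, hcN, hc⟩ := hex
        refine ih b c hcN.1 ?_ hc
        have hss : side T b c ⊂ side T a b := by
          rw [Set.ssubset_iff_subset_ne]
          constructor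
          · intro x hx
            exact (side_sub hT.isAcyclic hcN.1 hcN.2 hx).1
          · intro heq
            have hb : b ∈ side T b c := by
              rw [heq]; exact SimpleGraph.Reachable.refl _
            exact (side_sub hT.isAcyclic hcN.1 hcN.2 hb).2 rfl
        have := Set.ncard_lt_ncard hss (Set.toFinite _)
        omega
  -- a starting edge
  have hV : 0 < Fintype.card V := by omega
  obtain ⟨v0⟩ := Fintype.card_pos_iff.1 hV
  obtain ⟨b0, hb0⟩ := Set.ncard_eq_one.1 (f v0).2
  have hadj : T.Adj (f v0).1 b0 := by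
    have : b0 ∈ T.neighborSet (f v0).1 := by rw [hb0]; rfl
    exact this
  set a0 := (f v0).1
  have hcov : (Set.univ : Set V) ⊆ {v | (f v).1 ∈ side T a0 b0} ∪ {v | (f v).1 ∈ side T b0 a0} := by
    intro v _
    exact side_cover hT.connected hadj _
  have h5 := Set.ncard_le_ncard hcov (Set.toFinite _)
  have h6 := Set.ncard_union_le {v | (f v).1 ∈ side T a0 b0} {v | (f v).1 ∈ side T b0 a0}
  rw [Set.ncard_univ, Nat.card_eq_fintype_card] at h5
  by_cases h7 : m ≤ {v | (f v).1 ∈ side T a0 b0}.ncard
  · exact main _ a0 b0 hadj le_rfl h7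
  · exact main _ b0 a0 hadj.symm le_rfl (by omega)

end Pool.Agent.Q39.CT
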